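import Pool.Agent.Helper496_So4.Bridge

/-!
# Classification of the factoring subalgebras of `so_4((λ))`

The definitions are in `Pool/Agent/Helper496_So4/Defs.lean`.

1. The matrices `H` of the families `f1` and `f4` which are given by their adjugate exist and are
   unique.
2. For every choice of the parameters in the nine families (with `t = λ⁻¹` and any
   `s = λ⁻¹ + …`) there is exactly one subalgebra with these data, and it is factoring.
3. Every factoring subalgebra of `so_4((λ))` is carried to one of these by finitely many
   reparametrisations `λ ↦ λ + k₂ λ² + …` and automorphisms `exp (ad g)`, `g ∈ λ so_4[[λ]]`.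
-/

set_option autoImplicit false

open Helper496.So4Loop

namespace Pool.Agent.Results.MP_106392_al.Classification

/-- The factoring subalgebras of `so_4((λ))` up to equivalence. -/
theorem result :
    (∀ (t : L) (B : Mat 3 ℂ), Polar (t • 1) → B.transpose = B → ∃! H, RootH t B H) ∧
    (∀ (s : L) (H W H' W' : Mat 3 L), Polar (s • 1) →
      Fam (HahnSeries.single (-1) 1) s H W H' W' →
        (∃! U, Alg H W H' W' U) ∧ ∀ U, Alg H W H' W' U → Factoring U) ∧
    (∀ U : Submodule ℂ (Mat 4 L), Factoring U →
      ∃ (s : L) (H W H' W' : Mat 3 L) (V : Submodule ℂ (Mat 4 L)), Polar (s • 1) ∧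
        Fam (HahnSeries.single (-1) 1) s H W H' W' ∧ Alg H W H' W' V ∧
        Relation.ReflTransGen (fun X Y => Reparam X Y ∨ Gauge X Y) U V) :=
  ⟨part1, part2, part3⟩

end Pool.Agent.Results.MP_106392_al.Classification
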